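import Mathlib
import Pool.Agent.H29.HS.Iface

/-!
# MP_a2e4e3_an, module G1: convergence of moments implies convergence of `L_p` norms of
multilinear polynomials (helper74)
-/

set_option autoImplicit false

namespace Pool.Agent.H74.HS
open MeasureTheory Finset Filter Pool.Agent.H29.HS
open scoped Topology

section BMfacts

variable {Ω : Type} [MeasurableSpace Ω]

lemma bm_int {X : Ω → ℝ} (hX : BM X) (μ : Measure Ω) [IsFiniteMeasure μ] :
    Integrable X μ := by
  obtain ⟨hm, B, hB⟩ := hX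
  exact Integrable.of_bound hm.aestronglyMeasurable B (Eventually.of_forall fun x => by
    simpa [Real.norm_eq_abs] using hB x)

lemma bm_comp {X : Ω → ℝ} (hX : BM X) {g : ℝ → ℝ} (hg : Continuous g) : BM (fun x => g (X x)) := by
  obtain ⟨hm, B, hB⟩ := hX
  refine ⟨hg.measurable.comp hm, ?_⟩
  obtain ⟨C, hC⟩ := (isCompact_Icc (a := -B) (b := B)).exists_bound_of_continuousOn
    (f := g) hg.continuousOn
  exact ⟨C, fun x => by
    have := hC (X x) (abs_le.mp (hB x))
    simpa [Real.norm_eq_abs] using this⟩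

end BMfacts

/-- polynomial growth of a real polynomial off the unit interval -/
lemma poly_growth (P : Polynomial ℝ) : ∃ C : ℝ, 0 ≤ C ∧ ∀ t : ℝ, 1 ≤ |t| →
    |P.eval t| ≤ C * t ^ (2 * (P.natDegree + 1)) := by
  refine ⟨∑ i ∈ range (P.natDegree + 1), |P.coeff i|, Finset.sum_nonneg fun _ _ => abs_nonneg _, ?_⟩
  intro t ht
  rw [Polynomial.eval_eq_sum_range, Finset.sum_mul]
  refine (Finset.abs_sum_le_sum_abs _ _).trans (Finset.sum_le_sum fun i hi => ?_)
  rw [abs_mul, abs_pow]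
  refine mul_le_mul_of_nonneg_left ?_ (abs_nonneg _)
  have h1 : t ^ (2 * (P.natDegree + 1)) = |t| ^ (2 * (P.natDegree + 1)) := by
    rw [pow_mul, pow_mul, sq_abs]
  rw [h1]
  have hi' := Finset.mem_range.mp hi
  exact pow_le_pow_right₀ ht (by omega)

/-- one-dimensional statement: convergence of moments to those of a bounded variable gives
convergence of `E h(V_m)` for `h` continuous of at most quadratic growth -/
lemma one_dim {Ω : ℕ → Type} [∀ m, MeasurableSpace (Ω m)] (μ : ∀ m, Measure (Ω m))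
    [∀ m, IsProbabilityMeasure (μ m)] (V : ∀ m, Ω m → ℝ) (hV : ∀ m, BM (V m))
    {Ω' : Type} [MeasurableSpace Ω'] (ν : Measure Ω') [IsProbabilityMeasure ν] (W : Ω' → ℝ)
    (hW : BM W)
    (hmom : ∀ j : ℕ, Tendsto (fun m => ∫ x, V m x ^ j ∂(μ m)) atTop (𝓝 (∫ x, W x ^ j ∂ν)))
    (h : ℝ → ℝ) (hc : Continuous h) (hg : ∀ t : ℝ, 1 ≤ |t| → |h t| ≤ t ^ 2) :
    Tendsto (fun m => ∫ x, h (V m x) ∂(μ m)) atTop (𝓝 (∫ x, h (W x) ∂ν)) := by
  obtain ⟨hWm, B₀, hB₀⟩ := hW
  have hW : BM W := ⟨hWm, B₀, hB₀⟩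
  set B : ℝ := max B₀ 1 with hBdef
  have hB1 : 1 ≤ B := le_max_right _ _
  have hBW : ∀ x, |W x| ≤ B := fun x => (hB₀ x).trans (le_max_left _ _)
  have hBpos : 0 < B := by linarith
  -- polynomial convergence
  have hpoly : ∀ P : Polynomial ℝ, Tendsto (fun m => ∫ x, P.eval (V m x) ∂(μ m)) atTop
      (𝓝 (∫ x, P.eval (W x) ∂ν)) := by
    intro P
    have key : ∀ {Ω'' : Type} [MeasurableSpace Ω''] (ρ : Measure Ω'') [IsProbabilityMeasure ρ]
        (X : Ω'' → ℝ), BM X → ∫ x, P.eval (X x) ∂ρ =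
          ∑ i ∈ range (P.natDegree + 1), P.coeff i * ∫ x, X x ^ i ∂ρ := by
      intro Ω'' _ ρ _ X hX
      simp_rw [Polynomial.eval_eq_sum_range]
      rw [integral_finsetSum]
      · refine Finset.sum_congr rfl fun i _ => ?_
        rw [integral_const_mul]
      · intro i _
        exact (bm_int (bm_comp hX (continuous_pow i)) ρ).const_mul _
    rw [key ν W hW]
    have : (fun m => ∫ x, P.eval (V m x) ∂(μ m)) =
        fun m => ∑ i ∈ range (P.natDegree + 1), P.coeff i * ∫ x, V m x ^ i ∂(μ m) := by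
      funext m
      exact key (μ m) (V m) (hV m)
    rw [this]
    exact tendsto_finsetSum _ fun i _ => (hmom i).const_mul _
  rw [Metric.tendsto_atTop]
  intro ε hε
  set R : ℝ := 2 * B with hR
  have hRpos : 0 < R := by positivity
  have hR1 : 1 ≤ R := by linarith
  obtain ⟨P, hP⟩ := exists_polynomial_near_of_continuousOn (-R) R h hc.continuousOn (ε / 8)
    (by positivity)
  obtain ⟨C₀, hC₀, hgrow⟩ := poly_growth P
  set D : ℕ := P.natDegree + 1 with hD
  set C : ℝ := C₀ + 1 with hC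
  have hCpos : 0 < C := by linarith
  obtain ⟨k, hk⟩ : ∃ k : ℕ, (C * B ^ (2 * D)) * ((1 / 4 : ℝ)) ^ k < ε / 8 := by
    have h1 : Tendsto (fun k : ℕ => (C * B ^ (2 * D)) * ((1 / 4 : ℝ)) ^ k) atTop
        (𝓝 ((C * B ^ (2 * D)) * 0)) :=
      (tendsto_pow_atTop_nhds_zero_of_lt_one (by norm_num) (by norm_num)).const_mul _
    rw [mul_zero] at h1
    exact (h1.eventually (gt_mem_nhds (by positivity))).exists
  -- the tail bound
  have htail : ∀ t : ℝ, |P.eval t - h t| ≤ ε / 8 + C / R ^ (2 * k) * t ^ (2 * D + 2 * k) := by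
    intro t
    have hpow0 : 0 ≤ t ^ (2 * D + 2 * k) := by
      rw [← mul_add, pow_mul]
      positivity
    rcases le_or_gt (|t|) R with ht | ht
    · have h1 := (hP t (abs_le.mp ht)).le
      have h2 : 0 ≤ C / R ^ (2 * k) * t ^ (2 * D + 2 * k) := by positivity
      linarith
    · have ht1 : 1 ≤ |t| := by linarith
      have h1 := hgrow t ht1
      have h2 := hg t ht1
      have h3 : t ^ 2 ≤ t ^ (2 * D) := by
        have e1 : t ^ 2 = |t| ^ 2 := (sq_abs t).symm
        have e2 : t ^ (2 * D) = |t| ^ (2 * D) := by rw [pow_mul, pow_mul, sq_abs]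
        rw [e1, e2]
        exact pow_le_pow_right₀ ht1 (by omega)
      have h4 : |P.eval t - h t| ≤ C * t ^ (2 * D) := by
        calc |P.eval t - h t| ≤ |P.eval t| + |h t| := abs_sub _ _
          _ ≤ C₀ * t ^ (2 * D) + t ^ (2 * D) := by linarith
          _ = C * t ^ (2 * D) := by rw [hC]; ring
      have h5 : 1 ≤ t ^ (2 * k) / R ^ (2 * k) := by
        rw [one_le_div (by positivity)]
        have e2 : t ^ (2 * k) = |t| ^ (2 * k) := by rw [pow_mul, pow_mul, sq_abs]
        rw [e2]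
        exact pow_le_pow_left₀ hRpos.le ht.le _
      have h6 : 0 ≤ t ^ (2 * D) := by rw [pow_mul]; positivity
      have h7 : C * t ^ (2 * D) ≤ C / R ^ (2 * k) * t ^ (2 * D + 2 * k) := by
        calc C * t ^ (2 * D) = C * t ^ (2 * D) * 1 := by ring
          _ ≤ C * t ^ (2 * D) * (t ^ (2 * k) / R ^ (2 * k)) :=
              mul_le_mul_of_nonneg_left h5 (by positivity)
          _ = C / R ^ (2 * k) * t ^ (2 * D + 2 * k) := by rw [pow_add]; ring
      linarith
  have htailW : ∀ x, |P.eval (W x) - h (W x)| ≤ ε / 8 := by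
    intro x
    refine (hP (W x) (abs_le.mp ((hBW x).trans ?_))).le
    linarith
  -- limit of the tail term
  have hT : Tendsto (fun m => C / R ^ (2 * k) * ∫ x, V m x ^ (2 * D + 2 * k) ∂(μ m)) atTop
      (𝓝 (C / R ^ (2 * k) * ∫ x, W x ^ (2 * D + 2 * k) ∂ν)) := (hmom _).const_mul _
  have hTlim : C / R ^ (2 * k) * ∫ x, W x ^ (2 * D + 2 * k) ∂ν < ε / 8 := by
    have h1 : ∫ x, W x ^ (2 * D + 2 * k) ∂ν ≤ B ^ (2 * D + 2 * k) := by
      have : ∫ x, W x ^ (2 * D + 2 * k) ∂ν ≤ ∫ _, B ^ (2 * D + 2 * k) ∂ν := by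
        refine integral_mono (bm_int (bm_comp hW (continuous_pow _)) ν) (integrable_const _) ?_
        intro x
        show W x ^ (2 * D + 2 * k) ≤ B ^ (2 * D + 2 * k)
        refine (le_abs_self _).trans ?_
        rw [abs_pow]
        exact pow_le_pow_left₀ (abs_nonneg _) (hBW x) _
      simpa using this
    calc C / R ^ (2 * k) * ∫ x, W x ^ (2 * D + 2 * k) ∂ν
        ≤ C / R ^ (2 * k) * B ^ (2 * D + 2 * k) :=
          mul_le_mul_of_nonneg_left h1 (by positivity)
      _ = (C * B ^ (2 * D)) * ((1 / 4 : ℝ)) ^ k := by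
          have : R ^ (2 * k) = 4 ^ k * B ^ (2 * k) := by
            rw [hR, mul_pow, pow_mul 2 2 k]; norm_num
          rw [this, pow_add, one_div, inv_pow]
          field_simp
      _ < ε / 8 := hk
  have hev1 := hT.eventually (gt_mem_nhds hTlim)
  have hev2 := (hpoly P).eventually (Metric.ball_mem_nhds _ (show 0 < ε / 8 by positivity))
  obtain ⟨M, hM⟩ := (hev1.and hev2).exists_forall_of_atTop
  refine ⟨M, fun m hm => ?_⟩
  obtain ⟨h1, h2⟩ := hM m hm
  rw [Real.dist_eq] at h2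
  rw [Real.dist_eq]
  have iP : ∀ {Ω'' : Type} [MeasurableSpace Ω''] (ρ : Measure Ω'') [IsProbabilityMeasure ρ]
      (X : Ω'' → ℝ), BM X → Integrable (fun x => P.eval (X x)) ρ := fun ρ _ X hX =>
    bm_int (bm_comp hX P.continuous) ρ
  have ih : ∀ {Ω'' : Type} [MeasurableSpace Ω''] (ρ : Measure Ω'') [IsProbabilityMeasure ρ]
      (X : Ω'' → ℝ), BM X → Integrable (fun x => h (X x)) ρ := fun ρ _ X hX =>
    bm_int (bm_comp hX hc) ρ
  have e1 : |∫ x, P.eval (V m x) ∂(μ m) - ∫ x, h (V m x) ∂(μ m)| ≤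
      ε / 8 + C / R ^ (2 * k) * ∫ x, V m x ^ (2 * D + 2 * k) ∂(μ m) := by
    rw [← integral_sub (iP _ _ (hV m)) (ih _ _ (hV m))]
    refine (abs_integral_le_integral_abs).trans ?_
    have : ∫ x, |P.eval (V m x) - h (V m x)| ∂(μ m) ≤
        ∫ x, (ε / 8 + C / R ^ (2 * k) * V m x ^ (2 * D + 2 * k)) ∂(μ m) := by
      refine integral_mono ?_ ?_ fun x => htail _
      · exact ((iP _ _ (hV m)).sub (ih _ _ (hV m))).abs
      · exact (integrable_const _).add
          ((bm_int (bm_comp (hV m) (continuous_pow _)) (μ m)).const_mul _)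
    refine this.trans_eq ?_
    rw [integral_add (integrable_const _)
      ((bm_int (bm_comp (hV m) (continuous_pow _)) (μ m)).const_mul _), integral_const_mul]
    simp
  have e2 : |∫ x, P.eval (W x) ∂ν - ∫ x, h (W x) ∂ν| ≤ ε / 8 := by
    rw [← integral_sub (iP _ _ hW) (ih _ _ hW)]
    refine (abs_integral_le_integral_abs).trans ?_
    have : ∫ x, |P.eval (W x) - h (W x)| ∂ν ≤ ∫ _, (ε / 8) ∂ν := by
      refine integral_mono ((iP _ _ hW).sub (ih _ _ hW)).abs (integrable_const _) fun x =>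
        htailW x
    simpa using this
  rw [abs_le] at e1 e2
  rw [abs_lt] at h2 ⊢
  constructor <;> linarith [e1.1, e1.2, e2.1, e2.2, h2.1, h2.2]

/-! ### several variables -/

section Multi

variable {ι : Type} [Fintype ι]

/-- the polynomial of `mev` -/
noncomputable def mpol (a : Finset ι → ℝ) : MvPolynomial ι ℝ :=
  ∑ S : Finset ι, MvPolynomial.C (a S) * ∏ i ∈ S, MvPolynomial.X i

lemma eval_mpol (a : Finset ι → ℝ) (x : ι → ℝ) : MvPolynomial.eval x (mpol a) = mev a x := by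
  simp [mpol, mev]

lemma bm_prod {Ω : Type} [MeasurableSpace Ω] {Y : Ω → ℝ} (hY : BM Y) (d : ι → ℕ) :
    BM (fun ω : ι → Ω => ∏ i, Y (ω i) ^ d i) := by
  obtain ⟨hm, B, hB⟩ := hY
  refine ⟨?_, ∏ i, |B| ^ d i, fun ω => ?_⟩
  · exact Finset.measurable_fun_prod _ fun i _ => ((hm.comp (measurable_pi_apply i)).pow_const _)
  · rw [Finset.abs_prod]
    refine Finset.prod_le_prod (fun i _ => abs_nonneg _) fun i _ => ?_
    rw [abs_pow]
    exact pow_le_pow_left₀ (abs_nonneg _) ((hB _).trans (le_abs_self _)) _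

lemma integral_eval {Ω : Type} [MeasurableSpace Ω] (μ : Measure Ω) [IsProbabilityMeasure μ]
    {Y : Ω → ℝ} (hY : BM Y) (Q : MvPolynomial ι ℝ) :
    ∫ ω, MvPolynomial.eval (fun i => Y (ω i)) Q ∂(Measure.pi fun _ : ι => μ) =
      ∑ d ∈ Q.support, Q.coeff d * ∏ i, ∫ x, Y x ^ d i ∂μ := by
  simp_rw [MvPolynomial.eval_eq']
  rw [integral_finsetSum]
  · refine Finset.sum_congr rfl fun d _ => ?_
    rw [integral_const_mul]
    congr 1
    exact integral_fintype_prod_eq_prod (fun i x => Y x ^ d i)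
  · intro d _
    exact (bm_int (bm_prod hY d) _).const_mul _

lemma bm_mev {Ω : Type} [MeasurableSpace Ω] {Y : Ω → ℝ} (hY : BM Y) (a : Finset ι → ℝ) :
    BM (fun ω : ι → Ω => Pool.Agent.H29.HS.mev a fun i => Y (ω i)) := by
  obtain ⟨hm, B, hB⟩ := hY
  refine ⟨?_, ∑ S : Finset ι, |a S| * |B| ^ S.card, fun ω => ?_⟩
  · unfold Pool.Agent.H29.HS.mev
    exact Finset.measurable_fun_sum _ fun S _ => (Finset.measurable_fun_prod _ fun i _ =>
      (hm.comp (measurable_pi_apply i))).const_mul _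
  · unfold Pool.Agent.H29.HS.mev
    refine (Finset.abs_sum_le_sum_abs _ _).trans (Finset.sum_le_sum fun S _ => ?_)
    rw [abs_mul, Finset.abs_prod]
    refine mul_le_mul_of_nonneg_left ?_ (abs_nonneg _)
    rw [← Finset.prod_const]
    exact Finset.prod_le_prod (fun i _ => abs_nonneg _) fun i _ => (hB _).trans (le_abs_self _)

end Multi

lemma arcU_bm : BM arcU := by
  refine ⟨?_, Real.sqrt 2, fun θ => ?_⟩
  · unfold arcU
    exact (((Complex.measurable_re.comp (fourier 1).continuous.measurable)).const_mul _)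
  · unfold arcU
    rw [abs_mul, abs_of_nonneg (Real.sqrt_nonneg _)]
    refine (mul_le_mul_of_nonneg_left ((Complex.abs_re_le_norm _).trans ?_)
      (Real.sqrt_nonneg _)).trans_eq (mul_one _)
    rw [fourier_apply, Circle.norm_coe]

instance : IsProbabilityMeasure arcM := by
  unfold arcM
  infer_instance

theorem g1Stmt : G1Stmt := by
  intro Ω _ μ _ Y hY hmom ι _ _ a
  unfold nrm
  have hmain : Tendsto (fun m => ∫ ω, |mev a (fun i => Y m (ω i))| ^ (10 / 9 : ℝ)
      ∂(Measure.pi fun _ : ι => μ m)) atTop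
      (𝓝 (∫ ω, |mev a (fun i => arcU (ω i))| ^ (10 / 9 : ℝ)
        ∂(Measure.pi fun _ : ι => arcM))) := by
    refine one_dim (fun m => Measure.pi fun _ : ι => μ m)
      (fun m ω => mev a (fun i => Y m (ω i))) (fun m => bm_mev (hY m) a)
      (Measure.pi fun _ : ι => arcM) (fun ω => mev a (fun i => arcU (ω i)))
      (bm_mev arcU_bm a) ?_ (fun t => |t| ^ (10 / 9 : ℝ)) ?_ ?_
    · intro j
      have e : ∀ {Ω'' : Type} [MeasurableSpace Ω''] (ρ : Measure Ω'') [IsProbabilityMeasure ρ]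
          (X : Ω'' → ℝ), BM X → ∫ ω, mev a (fun i => X (ω i)) ^ j ∂(Measure.pi fun _ : ι => ρ) =
          ∑ d ∈ (mpol a ^ j).support, (mpol a ^ j).coeff d * ∏ i, ∫ x, X x ^ d i ∂ρ := by
        intro Ω'' _ ρ _ X hX
        rw [← integral_eval ρ hX]
        refine integral_congr_ae (Eventually.of_forall fun ω => ?_)
        simp only [map_pow, eval_mpol]
      rw [e arcM arcU arcU_bm]
      have : (fun m => ∫ ω, mev a (fun i => Y m (ω i)) ^ j ∂(Measure.pi fun _ : ι => μ m)) =
          fun m => ∑ d ∈ (mpol a ^ j).support,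
            (mpol a ^ j).coeff d * ∏ i, ∫ x, Y m x ^ d i ∂(μ m) := by
        funext m
        exact e (μ m) (Y m) (hY m)
      rw [this]
      exact tendsto_finsetSum _ fun d _ =>
        (tendsto_finsetProd _ fun i _ => hmom (d i)).const_mul _
    · exact continuous_abs.rpow_const fun t => Or.inr (by norm_num)
    · intro t ht
      rw [abs_of_nonneg (Real.rpow_nonneg (abs_nonneg _) _), ← sq_abs, ← Real.rpow_natCast]
      exact Real.rpow_le_rpow_of_exponent_le ht (by norm_num)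
  exact hmain.rpow_const (Or.inr (by norm_num))

end Pool.Agent.H74.HS
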